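import Mathlib

/-! An influential edge that is never very influential. -/

open MeasureTheory ProbabilityTheory SimpleGraph Function Classical

namespace Pool.Agent.H.MP_b09029_pr

def G (n : ℕ) : SimpleGraph {x : ℤ × ℤ // |x.1| ≤ 2 * n ∧ |x.2| ≤ 2 * n} where
  Adj x y := |x.1.1 - y.1.1| + |x.1.2 - y.1.2| = 1
  symm := ⟨fun x y h => by rwa [abs_sub_comm, abs_sub_comm y.1.2]⟩
  loopless := ⟨fun x h => by simp at h⟩

noncomputable def f (n : ℕ) (ω : (G n).edgeSet → Bool) : ℝ :=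
  ⨅ γ : (G n).Path ⟨(0, 0), by simp⟩ ⟨(n, 0), by simp; omega⟩,
    (γ.1.darts.map fun d => if ω ⟨d.edge, d.edge_mem⟩ then (1 : ℝ) else 4).sum

section
variable {V : Type*} {H : SimpleGraph V} (w : H.Dart → ℝ)

lemma pot (φ : V → ℝ) (h : ∀ d : H.Dart, φ d.snd - φ d.fst ≤ w d) {u v : V} (q : H.Walk u v) :
    φ v - φ u ≤ (q.darts.map w).sum := by
  induction q with
  | nil => simp
  | cons a q ih => simp only [Walk.darts_cons, List.map_cons, List.sum_cons]; linarith [h ⟨(_, _), a⟩]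

lemma chain (g : ℕ → V) (c : ℝ) (k : ℕ) (h : ∀ i < k, ∃ a : H.Adj (g i) (g (i + 1)), w ⟨(_, _), a⟩ ≤ c) :
    ∃ q : H.Walk (g 0) (g k), (q.darts.map w).sum ≤ k * c := by
  induction k with
  | zero => exact ⟨.nil, by simp⟩
  | succ k ih =>
    obtain ⟨q, hq⟩ := ih fun i l => h i (by omega)
    obtain ⟨a, ha⟩ := h k (by omega)
    exact ⟨q.concat a, by simp [Walk.darts_concat]; linarith⟩

lemma inf_le (h : ∀ d, 0 ≤ w d) {u v : V} (q : H.Walk u v) :
    ⨅ γ : H.Path u v, (γ.1.darts.map w).sum ≤ (q.darts.map w).sum :=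
  (ciInf_le ⟨0, by rintro - ⟨γ, rfl⟩; exact List.sum_nonneg (by simpa using fun d _ => h d)⟩
    q.toPath).trans ((q.darts_bypass_sublist_darts.map w).sum_le_sum (by simpa using fun d _ => h d))

end

def φ (m : ℤ) (z : ℤ × ℤ) : ℤ :=
  min (4 * |z.1| + |z.2|) (m + |z.1| + (if 1 ≤ z.1 then 3 else 0) + |z.2 - m|)

lemma lipz {m : ℤ} (hm : 0 ≤ m) {u v : ℤ × ℤ} (h : |u.1 - v.1| + |u.2 - v.2| = 1) :
    φ m v - φ m u ≤ 4 ∧ (¬ (u = (0, m) ∧ v = (1, m) ∨ u = (1, m) ∧ v = (0, m)) →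
      u.1 = v.1 ∨ u.2 = m ∧ v.2 = m → φ m v - φ m u ≤ 1) := by
  obtain ⟨a, b⟩ := u
  obtain ⟨c, e⟩ := v
  simp only [φ, Prod.mk.injEq] at h ⊢
  have h1 := abs_le.1 (abs_abs_sub_abs_le_abs_sub a c)
  have h2 := abs_le.1 (abs_abs_sub_abs_le_abs_sub b e)
  have h3 := abs_le.1 (abs_abs_sub_abs_le_abs_sub (b - m) (e - m))
  rw [sub_sub_sub_cancel_right] at h3
  have h4 : b = m → |b| = m ∧ |b - m| = 0 := by rintro rfl; simpa
  have h5 : e = m → |e - m| = 0 := by rintro rfl; simp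
  have h6 := le_abs_self a
  have h7 := abs_nonneg a
  have h8 : a = c ∧ |a - c| = 0 ∨ (c = a + 1 ∨ c = a - 1) ∧ b = e ∧ |b - e| = 0 := by
    simp only [abs_eq_max_neg] at h ⊢; omega
  generalize |a| = A, |b| = B, |c| = C, |e| = E, |b - m| = B', |e - m| = E', |a - c| = x, |b - e| = y at *
  split_ifs <;> omega

theorem main (p : unitInterval) (p0 : 0 < p) (p1 : p < 1) (n : ℕ) (hn : 1 ≤ n) : ∃ j : (G n).edgeSet,
    0 < Measure.infinitePi (fun _ => bernoulliMeasure true false p)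
      {ω | f n (update ω j false) - f n (update ω j true) ≠ 0} ∧
    {ω | f n (update ω j false) - f n (update ω j true) = 4 - 1} = ∅ := by
  obtain ⟨m, m1, m2⟩ : ∃ m : ℕ, 3 * n ≤ 2 * m + 2 ∧ 2 * m < 3 * n := ⟨(3 * n - 1) / 2, by omega, by omega⟩
  let x : {x : ℤ × ℤ // |x.1| ≤ 2 * n ∧ |x.2| ≤ 2 * n} := ⟨(0, m), by simp; omega⟩
  let y : {x : ℤ × ℤ // |x.1| ≤ 2 * n ∧ |x.2| ≤ 2 * n} := ⟨(1, m), by simp; omega⟩
  let j : (G n).edgeSet := ⟨s(x, y), by simp [G, x, y]⟩
  let w : ((G n).edgeSet → Bool) → (G n).Dart → ℝ := fun ω d => if ω ⟨d.edge, d.edge_mem⟩ then 1 else 4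
  have w1 : ∀ ω d, 1 ≤ w ω d ∧ w ω d ≤ 4 := fun ω d => by simp only [w]; split_ifs <;> norm_num
  have up : ∀ ω, f n ω ≤ n * 4 := fun ω => by
    obtain ⟨q, hq⟩ := chain (w ω) (fun i => ⟨(min i n, 0), by simp [abs_le]; omega⟩) 4 n fun i l =>
      ⟨by simp [G, l.le, show (i : ℤ) + 1 ≤ n by omega], (w1 _ _).2⟩
    exact (inf_le _ (fun d => by linarith [w1 ω d]) (q.copy (by simp) (by simp))).trans (by simpa using hq)
  have ne : Nonempty ((G n).Path ⟨(0, 0), by simp⟩ ⟨(n, 0), by simp; omega⟩) := by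
    obtain ⟨q, -⟩ := chain (H := G n) (fun _ => 0) (fun i => ⟨(min i n, 0), by simp [abs_le]; omega⟩) 0 n
      fun i l => ⟨by simp [G, l.le, show (i : ℤ) + 1 ≤ n by omega], le_rfl⟩
    exact ⟨(q.copy (by simp) (by simp)).toPath⟩
  have ad : ∀ d : (G n).Dart, |d.fst.1.1 - d.snd.1.1| + |d.fst.1.2 - d.snd.1.2| = 1 := fun d => d.adj
  let ω₀ : (G n).edgeSet → Bool := fun e => decide ((∀ a ∈ e.1, ∀ b ∈ e.1, a.1.1 = b.1.1) ∨ ∀ a ∈ e.1, a.1.2 = m)
  have o : ∀ d : (G n).Dart, ω₀ ⟨d.edge, d.edge_mem⟩ = true ↔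
      d.fst.1.1 = d.snd.1.1 ∨ d.fst.1.2 = m ∧ d.snd.1.2 = m := fun d => by
    simp only [ω₀, Dart.edge, Sym2.ball, decide_eq_true_eq, true_and, and_true]
    exact or_congr_left ⟨fun h => h.1, fun h => ⟨h, h.symm⟩⟩
  have ej : ∀ d : (G n).Dart, (⟨d.edge, d.edge_mem⟩ : (G n).edgeSet) = j ↔
      d.fst.1 = (0, (m : ℤ)) ∧ d.snd.1 = (1, (m : ℤ)) ∨ d.fst.1 = (1, (m : ℤ)) ∧ d.snd.1 = (0, (m : ℤ)) :=
    fun d => by simp [j, Dart.edge, x, y, Subtype.ext_iff, Prod.ext_iff (x := d.toProd)]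
  refine ⟨j, lt_of_lt_of_le ?_ (measure_mono (s := {ω₀}) ?_), Set.eq_empty_of_forall_notMem fun ω h => ?_⟩
  · have : Finite {x : ℤ × ℤ // |x.1| ≤ 2 * n ∧ |x.2| ≤ 2 * n} :=
      ((Set.finite_Icc (-(2 * n) : ℤ) (2 * n)).prod (Set.finite_Icc (-(2 * n) : ℤ) (2 * n))).subset
        fun z h => ⟨abs_le.1 h.1, abs_le.1 h.2⟩
    have := Fintype.ofFinite (G n).edgeSet
    rw [show {ω₀} = Set.pi (Finset.univ : Finset (G n).edgeSet) fun e => {ω₀ e} by simp [Set.univ_pi_singleton],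
      Measure.infinitePi_pi _ fun _ _ => .of_discrete]
    refine pos_iff_ne_zero.2 (Finset.prod_ne_zero_iff.2 fun e _ => ?_)
    have : (1 : ℝ) - p ≠ 0 := (sub_pos.2 (show (p : ℝ) < 1 from p1)).ne'
    cases ω₀ e <;> simp [bernoulliMeasure_def, ← NNReal.coe_eq_zero, p0.ne', this]
  · refine Set.singleton_subset_iff.2 ?_
    obtain ⟨q, hq⟩ := chain (w (update ω₀ j true)) (fun i => ⟨(min (n : ℤ) (max 0 (i - m)),
      min (min (i : ℤ) m) (max 0 (2 * m + n - i))), by simp only [abs_le]; omega⟩) 1 (n + 2 * m) fun i l =>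
      ⟨by simp only [G, abs_eq_max_neg]; push_cast; omega, by
        simp only [w]
        rw [if_pos]
        rw [update_apply]
        split_ifs
        · rfl
        · rw [o]; push_cast; omega⟩
    have a := (inf_le (w (update ω₀ j true)) (fun d => by linarith [w1 (update ω₀ j true) d])
      (q.copy (u' := ⟨(0, 0), by simp⟩) (v' := ⟨(n, 0), by simp; omega⟩) (by simp)
        (Subtype.ext (Prod.ext (by push_cast; omega) (by push_cast; omega))))).trans (by simpa using hq)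
    have b : (n + 2 * m + 1 : ℝ) ≤ f n (update ω₀ j false) := le_ciInf fun γ => by
      refine le_trans ?_ (pot (w _) (fun z => (φ m z.1 : ℝ)) (fun d => ?_) γ.1)
      · rw [← Int.cast_sub]
        exact_mod_cast (by simp [φ]; omega)
      · have := lipz (m := m) (by positivity) (ad d)
        rw [← Int.cast_sub]
        simp only [w]
        split_ifs with c
        · rw [update_apply] at c
          split_ifs at c with e
          exact_mod_cast this.2 (mt (ej d).2 e) ((o d).1 c)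
        · exact_mod_cast this.1
    exact (sub_pos.2 (by linarith [show f n (update ω₀ j true) ≤ n + 2 * m from a])).ne'
  · have : f n (update ω j false) - 2 ≤ f n (update ω j true) := le_ciInf fun γ => by
      by_cases c : ∃ d ∈ γ.1.darts, (⟨d.edge, d.edge_mem⟩ : (G n).edgeSet) = j
      · obtain ⟨d, hd, e⟩ := c
        have z := γ.1.dart_fst_mem_support_of_mem_darts hd
        have z2 : d.fst.1.2 = m := by rcases (ej d).1 e with e | e <;> simp [e.1]
        have u := pot (w (update ω j true)) (fun z => ((z.1.1 + z.1.2 : ℤ) : ℝ)) (fun d => le_trans (by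
          have := ad d; rw [← Int.cast_sub]; exact_mod_cast (by simp only [abs_eq_max_neg] at this; omega)) (w1 _ d).1) (γ.1.takeUntil _ z)
        have v := pot (w (update ω j true)) (fun z => ((z.1.1 - z.1.2 : ℤ) : ℝ)) (fun d => le_trans (by
          have := ad d; rw [← Int.cast_sub]; exact_mod_cast (by simp only [abs_eq_max_neg] at this; omega)) (w1 _ d).1) (γ.1.dropUntil _ z)
        rw [← γ.1.take_spec z, Walk.darts_append, List.map_append, List.sum_append]
        rw [z2] at u v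
        push_cast at u v
        have : (3 * n : ℝ) ≤ 2 * m + 2 := by exact_mod_cast m1
        linarith [up (update ω j false)]
      · have := inf_le (w (update ω j false)) (fun d => by linarith [w1 (update ω j false) d]) γ.1
        rw [List.map_congr_left (g := w (update ω j false)) fun d hd => by
          simp only [w, update_of_ne fun e => c ⟨d, hd, e⟩]]
        exact (sub_le_self _ zero_le_two).trans this
    linarith [show _ - _ = (4 - 1 : ℝ) from h]

end Pool.Agent.H.MP_b09029_pr
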